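import Pool.Agent.Lib.MP_cf17a0_co.S1.Edge.Ed58

/-! # The truncated kernel checks, part 66 -/

set_option autoImplicit false
set_option maxRecDepth 100000

namespace Pool.Agent.SignedQ.KC

theorem u_160 : many oka 36 160 = true := by decide +kernel

theorem u_196 : many oka 48 196 = true := by decide +kernel

end Pool.Agent.SignedQ.KC
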