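import Pool.Agent.Lib.MP_cf17a0_co.S1.Edge.Ed37

/-! # The truncated kernel checks, part 45 -/

set_option autoImplicit false
set_option maxRecDepth 100000

namespace Pool.Agent.SignedQ.KC

theorem u_24 : many oka 1 24 = true := by decide +kernel

theorem u_25 : many oka 1 25 = true := by decide +kernel

end Pool.Agent.SignedQ.KC
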